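import Mathlib

/-!
# Omega-primality and tame degree of numerical semigroups (MP_4e498a_al): definitions
-/

set_option autoImplicit false

open Finset

namespace Pool.Agent.TDO

variable {e : ℕ}

/-- `φ(x) = x_1 n_1 + ... + x_e n_e` -/
def val (n x : Fin e → ℕ) : ℕ := ∑ i, x i * n i

/-- the length `|x| = x_1 + ... + x_e` -/
def len (x : Fin e → ℕ) : ℕ := ∑ i, x i

/-- `Z(s)`, the set of the factorizations of `s` -/
def Z (n : Fin e → ℕ) (s : ℕ) : Set (Fin e → ℕ) := {x | val n x = s}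

/-- `gcd(x, y) = (min(x_1, y_1), ..., min(x_e, y_e))` -/
def gd (x y : Fin e → ℕ) : Fin e → ℕ := fun i => min (x i) (y i)

/-- the distance `d(x, y) = max {|x - gcd(x, y)|, |y - gcd(x, y)|}` -/
def dst (x y : Fin e → ℕ) : ℕ := max (len (x - gd x y)) (len (y - gd x y))

/-- `s` divides `t` in `S` -/
def Dvd (S : AddSubmonoid ℕ) (s t : ℕ) : Prop := ∃ r ∈ S, s + r = t

/-- the tame degree `t(s)`: the least `N` such that for every `i` with `s - n_i ∈ S` and every
factorization `x` of `s` there is a factorization `y` of `s` with `y_i ≠ 0` and `d(x, y) ≤ N` -/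
noncomputable def tdeg (S : AddSubmonoid ℕ) (n : Fin e → ℕ) (s : ℕ) : ℕ :=
  sInf {N | ∀ i, Dvd S (n i) s → ∀ x ∈ Z n s, ∃ y ∈ Z n s, y i ≠ 0 ∧ dst x y ≤ N}

/-- the tame degree `t(S)`, the supremum of `t(s)`, `s ∈ S` -/
noncomputable def tame (S : AddSubmonoid ℕ) (n : Fin e → ℕ) : ℕ∞ := ⨆ s ∈ S, (tdeg S n s : ℕ∞)

/-- the omega-primality `ω(S, s)`: the least positive `m` such that whenever `s` divides a sum
`s_1 + ... + s_k` of elements of `S`, then `s` divides the sum of some at most `m` of the `s_j` -/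
noncomputable def om (S : AddSubmonoid ℕ) (s : ℕ) : ℕ :=
  sInf {m | 0 < m ∧ ∀ (k : ℕ) (u : Fin k → ℕ), (∀ j, u j ∈ S) → Dvd S s (∑ j, u j) →
    ∃ J : Finset (Fin k), J.card ≤ m ∧ Dvd S s (∑ j ∈ J, u j)}

/-- `ω(S)`, the maximum of the `ω(S, n_i)` -/
noncomputable def omega (S : AddSubmonoid ℕ) (n : Fin e → ℕ) : ℕ := univ.sup fun i => om S (n i)

/-- `S` is a numerical semigroup which is minimally generated by `n_1 < ... < n_e` -/
structure NumSg (S : AddSubmonoid ℕ) (n : Fin e → ℕ) : Prop where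
  fin : ((S : Set ℕ)ᶜ).Finite
  mono : StrictMono n
  gen : AddSubmonoid.closure (Set.range n) = S
  min : ∀ i, n i ∉ AddSubmonoid.closure (n '' {i}ᶜ)

end Pool.Agent.TDO
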