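import Pool.Agent.TDO.Defs

/-!
# Omega-primality and tame degree: reduction to minimal elements
-/

set_option autoImplicit false

open Finset

namespace Pool.Agent.TDO

variable {e : ℕ}

theorem val_add (n x y : Fin e → ℕ) : val n (x + y) = val n x + val n y := by
  unfold val
  rw [← Finset.sum_add_distrib]
  exact Finset.sum_congr rfl fun i _ => by rw [Pi.add_apply, add_mul]

theorem len_add (x y : Fin e → ℕ) : len (x + y) = len x + len y := by
  unfold len
  rw [← Finset.sum_add_distrib]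
  rfl

theorem val_zero (n : Fin e → ℕ) : val n 0 = 0 := by
  unfold val
  exact Finset.sum_eq_zero fun i _ => zero_mul _

theorem val_sum {ι : Type} (n : Fin e → ℕ) (z : ι → Fin e → ℕ) (J : Finset ι) :
    val n (∑ t ∈ J, z t) = ∑ t ∈ J, val n (z t) := by
  classical
  induction J using Finset.induction_on with
  | empty => simp [val_zero]
  | insert t J ht ih => rw [Finset.sum_insert ht, Finset.sum_insert ht, val_add, ih]

theorem val_single (n : Fin e → ℕ) (i : Fin e) (a : ℕ) : val n (Pi.single i a) = a * n i := by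
  unfold val
  rw [Finset.sum_eq_single i]
  · rw [Pi.single_eq_same]
  · intro j _ hj
    rw [Pi.single_eq_of_ne hj, zero_mul]
  · intro h
    exact absurd (Finset.mem_univ i) h

theorem len_single (i : Fin e) (a : ℕ) : len (Pi.single i a : Fin e → ℕ) = a := by
  unfold len
  rw [Finset.sum_eq_single i]
  · rw [Pi.single_eq_same]
  · intro j _ hj
    rw [Pi.single_eq_of_ne hj]
  · intro h
    exact absurd (Finset.mem_univ i) h

theorem len_mono {x y : Fin e → ℕ} (h : x ≤ y) : len x ≤ len y :=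
  Finset.sum_le_sum fun i _ => h i

theorem eq_of_len {x y : Fin e → ℕ} (h : x ≤ y) (h2 : len y ≤ len x) : x = y := by
  have h3 : ∑ i, x i = ∑ i, y i := le_antisymm (len_mono h) h2
  have h4 := (Finset.sum_eq_sum_iff_of_le (fun i _ => h i)).1 h3
  funext i
  exact h4 i (Finset.mem_univ i)

theorem sub_add_self' {x y : Fin e → ℕ} (h : x ≤ y) : y - x + x = y := by
  funext i
  show y i - x i + x i = y i
  exact Nat.sub_add_cancel (h i)

theorem single_le {j : Fin e} {a : ℕ} {x : Fin e → ℕ} (h : a ≤ x j) :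
    (Pi.single j a : Fin e → ℕ) ≤ x := by
  intro l
  by_cases hl : l = j
  · subst hl
    rw [Pi.single_eq_same]
    exact h
  · rw [Pi.single_eq_of_ne hl]
    exact Nat.zero_le _

section

variable {S : AddSubmonoid ℕ} {n : Fin e → ℕ}

theorem mem_iff (h : AddSubmonoid.closure (Set.range n) = S) (s : ℕ) :
    s ∈ S ↔ ∃ x, val n x = s := by
  constructor
  · intro hs
    rw [← h] at hs
    induction hs using AddSubmonoid.closure_induction with
    | mem s hs =>
      obtain ⟨i, rfl⟩ := hs
      exact ⟨Pi.single i 1, by rw [val_single, one_mul]⟩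
    | zero => exact ⟨0, val_zero n⟩
    | add s t _ _ h1 h2 =>
      obtain ⟨x, rfl⟩ := h1
      obtain ⟨y, rfl⟩ := h2
      exact ⟨x + y, val_add n x y⟩
  · rintro ⟨x, rfl⟩
    unfold val
    refine AddSubmonoid.sum_mem _ fun i _ => ?_
    rw [← smul_eq_mul]
    refine AddSubmonoid.nsmul_mem _ ?_ _
    rw [← h]
    exact AddSubmonoid.subset_closure ⟨i, rfl⟩

theorem NumSg.pos (h : NumSg S n) (i : Fin e) : 0 < n i := by
  rcases Nat.eq_zero_or_pos (n i) with h0 | h0
  · exfalso
    apply h.min i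
    rw [h0]
    exact AddSubmonoid.zero_mem _
  · exact h0

theorem len_le_val (hp : ∀ i, 0 < n i) (x : Fin e → ℕ) : len x ≤ val n x :=
  Finset.sum_le_sum fun i _ => Nat.le_mul_of_pos_right _ (hp i)

theorem dvd_iff (h : AddSubmonoid.closure (Set.range n) = S) (i : Fin e) (s : ℕ) :
    Dvd S (n i) s ↔ ∃ y ∈ Z n s, y i ≠ 0 := by
  constructor
  · rintro ⟨r, hr, rfl⟩
    obtain ⟨x, rfl⟩ := (mem_iff h r).1 hr
    refine ⟨Pi.single i 1 + x, ?_, ?_⟩
    · show val n (Pi.single i 1 + x) = n i + val n x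
      rw [val_add, val_single, one_mul]
    · rw [Pi.add_apply, Pi.single_eq_same]
      omega
  · rintro ⟨y, hy, hi⟩
    have h1 : (Pi.single i 1 : Fin e → ℕ) ≤ y := single_le (Nat.one_le_iff_ne_zero.2 hi)
    refine ⟨val n (y - Pi.single i 1), (mem_iff h _).2 ⟨_, rfl⟩, ?_⟩
    have h2 : val n y = s := hy
    rw [← h2, ← sub_add_self' h1, val_add, val_single, one_mul, add_comm]
    congr 2
    rw [sub_add_self' h1]

theorem dvd_mono (h : AddSubmonoid.closure (Set.range n) = S) {i : Fin e} {x y : Fin e → ℕ}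
    (hxy : x ≤ y) (hx : Dvd S (n i) (val n x)) : Dvd S (n i) (val n y) := by
  obtain ⟨r, hr, hr2⟩ := hx
  refine ⟨r + val n (y - x), S.add_mem hr ((mem_iff h _).2 ⟨_, rfl⟩), ?_⟩
  have h1 : val n y = val n (y - x) + val n x := by rw [← val_add, sub_add_self' hxy]
  omega

/-- minimal elements of `Z(n_i + S)` -/
def Mn (S : AddSubmonoid ℕ) (n : Fin e → ℕ) (i : Fin e) (x : Fin e → ℕ) : Prop :=
  Dvd S (n i) (val n x) ∧ ∀ y, y ≤ x → Dvd S (n i) (val n y) → y = x

theorem exists_min (i : Fin e) (x : Fin e → ℕ) (hx : Dvd S (n i) (val n x)) :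
    ∃ y, y ≤ x ∧ Mn S n i y := by
  have key : ∀ k : ℕ, ∀ x : Fin e → ℕ, len x = k → Dvd S (n i) (val n x) →
      ∃ y, y ≤ x ∧ Mn S n i y := by
    intro k
    induction k using Nat.strong_induction_on with
    | _ k ih =>
      intro x hk hx
      by_cases hm : Mn S n i x
      · exact ⟨x, le_rfl, hm⟩
      · have h1 : ∃ y, y ≤ x ∧ Dvd S (n i) (val n y) ∧ y ≠ x := by
          by_contra hcon
          apply hm
          refine ⟨hx, fun y hy hd => ?_⟩
          by_contra hne
          exact hcon ⟨y, hy, hd, hne⟩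
        obtain ⟨y, hy, hd, hne⟩ := h1
        have h2 : len y < k := by
          by_contra hlt
          exact hne (eq_of_len hy (by omega))
        obtain ⟨z, hz, hmz⟩ := ih (len y) h2 y rfl hd
        exact ⟨z, hz.trans hy, hmz⟩
  exact key _ x rfl hx

/-- a minimal element different from `e_i` has no common component with the factorizations of the
same element which contain `n_i` -/
theorem disj (h : AddSubmonoid.closure (Set.range n) = S) {i : Fin e} {x y : Fin e → ℕ}
    (hx : Mn S n i x) (hne : x ≠ Pi.single i 1) (hy : y ∈ Z n (val n x)) (hi : y i ≠ 0)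
    (j : Fin e) : x j = 0 ∨ y j = 0 := by
  by_contra hcon
  push Not at hcon
  obtain ⟨h1, h2⟩ := hcon
  have sle : ∀ (z : Fin e → ℕ), z j ≠ 0 → (Pi.single j 1 : Fin e → ℕ) ≤ z :=
    fun z hz => single_le (Nat.one_le_iff_ne_zero.2 hz)
  by_cases hij : j = i
  · subst hij
    apply hne
    refine (hx.2 _ (sle x h1) ?_).symm
    exact ⟨0, S.zero_mem, by rw [val_single, one_mul, add_zero]⟩
  · have h3 := sub_add_self' (sle x h1)
    have h4 := sub_add_self' (sle y h2)
    have h5 : val n (x - Pi.single j 1) = val n (y - Pi.single j 1) := by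
      have e1 : val n x = val n (x - Pi.single j 1) + n j := by
        rw [← h3, val_add, val_single, one_mul, h3]
      have e2 : val n y = val n (y - Pi.single j 1) + n j := by
        rw [← h4, val_add, val_single, one_mul, h4]
      have e3 : val n y = val n x := hy
      omega
    have h6 : Dvd S (n i) (val n (x - Pi.single j 1)) := by
      rw [dvd_iff h]
      refine ⟨y - Pi.single j 1, h5.symm, ?_⟩
      show y i - (Pi.single j 1 : Fin e → ℕ) i ≠ 0
      rw [Pi.single_eq_of_ne (fun hh => hij hh.symm)]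
      exact hi
    have h7 := hx.2 _ (fun l => Nat.sub_le _ _) h6
    have h8 := congrFun h7 j
    have h9 : (Pi.single j 1 : Fin e → ℕ) j = 1 := Pi.single_eq_same j 1
    have h10 : x j - (Pi.single j 1 : Fin e → ℕ) j = x j := h8
    rw [h9] at h10
    omega

theorem dst_of_disj {x y : Fin e → ℕ} (h : ∀ j, x j = 0 ∨ y j = 0) :
    dst x y = max (len x) (len y) := by
  have h1 : gd x y = 0 := by
    funext j
    show min (x j) (y j) = 0
    rcases h j with h2 | h2 <;> rw [h2] <;> simp
  unfold dst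
  rw [h1]
  rfl

theorem dst_self (x : Fin e → ℕ) : dst x x = 0 := by
  have h1 : x - gd x x = 0 := by
    funext j
    show x j - min (x j) (x j) = 0
    rw [min_self, Nat.sub_self]
  unfold dst
  rw [h1, max_self]
  unfold len
  exact Finset.sum_eq_zero fun i _ => rfl

theorem dst_add (x y c : Fin e → ℕ) : dst (c + x) (c + y) = dst x y := by
  unfold dst
  congr 2
  · funext j
    show c j + x j - min (c j + x j) (c j + y j) = x j - min (x j) (y j)
    omega
  · funext j
    show c j + y j - min (c j + x j) (c j + y j) = y j - min (x j) (y j)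
    omega

theorem dst_le (x y : Fin e → ℕ) : dst x y ≤ max (len x) (len y) := by
  unfold dst
  exact max_le_max (len_mono fun j => Nat.sub_le _ _) (len_mono fun j => Nat.sub_le _ _)

/-! ### the tame degree -/

theorem tdeg_mem (h : NumSg S n) (s : ℕ) :
    ∀ i, Dvd S (n i) s → ∀ x ∈ Z n s, ∃ y ∈ Z n s, y i ≠ 0 ∧ dst x y ≤ tdeg S n s := by
  have hne : {N | ∀ i, Dvd S (n i) s → ∀ x ∈ Z n s, ∃ y ∈ Z n s, y i ≠ 0 ∧ dst x y ≤ N}.Nonempty := by
    refine ⟨s, ?_⟩
    intro i hi x hx
    obtain ⟨y, hy, hyi⟩ := (dvd_iff h.gen i s).1 hi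
    refine ⟨y, hy, hyi, (dst_le x y).trans (max_le ?_ ?_)⟩
    · exact (len_le_val h.pos x).trans (le_of_eq hx)
    · exact (len_le_val h.pos y).trans (le_of_eq hy)
  exact Nat.sInf_mem hne

theorem tame_use (h : NumSg S n) {N : ℕ} (ht : tame S n ≤ N) (i : Fin e) (x : Fin e → ℕ)
    (hx : Dvd S (n i) (val n x)) : ∃ y ∈ Z n (val n x), y i ≠ 0 ∧ dst x y ≤ N := by
  have h1 : (tdeg S n (val n x) : ℕ∞) ≤ N :=
    (le_iSup₂ (f := fun s (_ : s ∈ S) => (tdeg S n s : ℕ∞)) (val n x)
      ((mem_iff h.gen _).2 ⟨x, rfl⟩)).trans ht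
  obtain ⟨y, hy, hyi, hd⟩ := tdeg_mem h (val n x) i hx x rfl
  exact ⟨y, hy, hyi, hd.trans (by exact_mod_cast h1)⟩

theorem tame_le {N : ℕ}
    (hN : ∀ i x, Mn S n i x → ∃ y ∈ Z n (val n x), y i ≠ 0 ∧ dst x y ≤ N) : tame S n ≤ N := by
  refine iSup₂_le fun s _ => ?_
  have h1 : tdeg S n s ≤ N := by
    refine Nat.sInf_le ?_
    intro i hi x hx
    have hx' : val n x = s := hx
    obtain ⟨x', hx'x, hm⟩ := exists_min i x (by rw [hx']; exact hi)
    obtain ⟨y', hy', hy'i, hd⟩ := hN i x' hm
    have e1 := sub_add_self' hx'x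
    refine ⟨x - x' + y', ?_, ?_, ?_⟩
    · show val n (x - x' + y') = s
      have e2 : val n y' = val n x' := hy'
      rw [val_add, e2, ← val_add, e1, hx']
    · rw [Pi.add_apply]
      omega
    · calc dst x (x - x' + y') = dst (x - x' + x') (x - x' + y') := by rw [e1]
        _ = dst x' y' := dst_add _ _ _
        _ ≤ N := hd
  exact_mod_cast h1

/-! ### omega-primality -/

theorem cover {ι : Type} (z : ι → Fin e → ℕ) (I : Finset ι) :
    ∀ x : Fin e → ℕ, x ≤ ∑ t ∈ I, z t → ∃ J ⊆ I, J.card ≤ len x ∧ x ≤ ∑ t ∈ J, z t := by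
  classical
  induction I using Finset.induction_on with
  | empty =>
    intro x hx
    exact ⟨∅, Finset.Subset.refl _, Nat.zero_le _, hx⟩
  | insert t I ht ih =>
    intro x hx
    rw [Finset.sum_insert ht] at hx
    have h1 : x - z t ≤ ∑ t ∈ I, z t := by
      intro j
      have h0 : x j ≤ z t j + (∑ t ∈ I, z t) j := hx j
      have h00 : x j - z t j ≤ (∑ t ∈ I, z t) j := by omega
      exact h00
    obtain ⟨J, hJ, hJc, hJx⟩ := ih (x - z t) h1
    by_cases h2 : x - z t = x
    · rw [h2] at hJc hJx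
      exact ⟨J, hJ.trans (Finset.subset_insert _ _), hJc, hJx⟩
    · have h3 : len (x - z t) < len x := by
        by_contra hlt
        exact h2 (eq_of_len (fun j => Nat.sub_le _ _) (by omega))
      have h4 : t ∉ J := fun hh => ht (hJ hh)
      refine ⟨insert t J, Finset.insert_subset_insert _ hJ, ?_, ?_⟩
      · rw [Finset.card_insert_of_notMem h4]
        omega
      · rw [Finset.sum_insert h4]
        intro j
        have h5 : x j - z t j ≤ (∑ t ∈ J, z t) j := hJx j
        have h6 : x j ≤ z t j + (∑ t ∈ J, z t) j := by omega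
        exact h6

theorem om_mem_of (h : NumSg S n) (i : Fin e) {m : ℕ} (hm : 0 < m)
    (hb : ∀ x, Mn S n i x → len x ≤ m) :
    0 < m ∧ ∀ (k : ℕ) (u : Fin k → ℕ), (∀ j, u j ∈ S) → Dvd S (n i) (∑ j, u j) →
      ∃ J : Finset (Fin k), J.card ≤ m ∧ Dvd S (n i) (∑ j ∈ J, u j) := by
  refine ⟨hm, ?_⟩
  intro k u hu hd
  choose z hz using fun j => (mem_iff h.gen (u j)).1 (hu j)
  have h1 : ∀ J : Finset (Fin k), val n (∑ j ∈ J, z j) = ∑ j ∈ J, u j := by
    intro J
    rw [val_sum]
    exact Finset.sum_congr rfl fun j _ => hz j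
  obtain ⟨x, hx, hmin⟩ := exists_min i (∑ j, z j) (by rw [h1]; exact hd)
  obtain ⟨J, -, hJ1, hJ2⟩ := cover z univ x hx
  refine ⟨J, hJ1.trans (hb x hmin), ?_⟩
  rw [← h1]
  exact dvd_mono h.gen hJ2 hmin.1

theorem om_le (h : NumSg S n) (i : Fin e) {m : ℕ} (hm : 0 < m)
    (hb : ∀ x, Mn S n i x → len x ≤ m) : om S (n i) ≤ m :=
  Nat.sInf_le (om_mem_of h i hm hb)

theorem Mn_le (h : NumSg S n) {i : Fin e} {x : Fin e → ℕ} (hx : Mn S n i x) :
    len x ≤ e * n i := by
  have h1 : ∀ j, x j ≤ n i := by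
    intro j
    by_contra hlt
    push Not at hlt
    have h2 : (Pi.single j (n i) : Fin e → ℕ) ≤ x := single_le hlt.le
    have h3 : Dvd S (n i) (val n (Pi.single j (n i))) := by
      obtain ⟨a, ha⟩ : ∃ a, n j = a + 1 := ⟨n j - 1, by have := h.pos j; omega⟩
      refine ⟨a * n i, (mem_iff h.gen _).2 ⟨Pi.single i a, val_single n i a⟩, ?_⟩
      rw [val_single, ha]
      ring
    have h4 := hx.2 _ h2 h3
    have h5 := congrFun h4 j
    rw [Pi.single_eq_same] at h5
    omega
  calc len x ≤ ∑ _j : Fin e, n i := Finset.sum_le_sum fun j _ => h1 j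
    _ = e * n i := by rw [Finset.sum_const, Finset.card_univ, Fintype.card_fin, smul_eq_mul]

theorem om_spec (h : NumSg S n) (i : Fin e) :
    0 < om S (n i) ∧ ∀ (k : ℕ) (u : Fin k → ℕ), (∀ j, u j ∈ S) → Dvd S (n i) (∑ j, u j) →
      ∃ J : Finset (Fin k), J.card ≤ om S (n i) ∧ Dvd S (n i) (∑ j ∈ J, u j) :=
  Nat.sInf_mem (s := {m | 0 < m ∧ ∀ (k : ℕ) (u : Fin k → ℕ), (∀ j, u j ∈ S) →
    Dvd S (n i) (∑ j, u j) → ∃ J : Finset (Fin k), J.card ≤ m ∧ Dvd S (n i) (∑ j ∈ J, u j)})
    ⟨e * n i + 1, om_mem_of h i (Nat.succ_pos _) fun _ hx => (Mn_le h hx).trans (Nat.le_succ _)⟩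

theorem len_le_om (h : NumSg S n) {i : Fin e} {x : Fin e → ℕ} (hx : Mn S n i x) :
    len x ≤ om S (n i) := by
  classical
  set E : ((j : Fin e) × Fin (x j)) ≃ Fin (∑ j, x j) := finSigmaFinEquiv
  set u : Fin (∑ j, x j) → ℕ := fun t => n (E.symm t).1 with hu
  have hsum : ∑ t, u t = val n x := by
    have h1 : ∑ t, u t = ∑ p : (j : Fin e) × Fin (x j), n p.1 :=
      Equiv.sum_comp E.symm (fun p : (j : Fin e) × Fin (x j) => n p.1)
    rw [h1, Fintype.sum_sigma]
    unfold val
    refine Finset.sum_congr rfl fun j _ => ?_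
    show ∑ _y : Fin (x j), n j = x j * n j
    rw [Finset.sum_const, Finset.card_univ, Fintype.card_fin, smul_eq_mul]
  obtain ⟨J, hJ1, hJ2⟩ := (om_spec h i).2 _ u
    (fun t => (mem_iff h.gen _).2 ⟨Pi.single (E.symm t).1 1, by rw [val_single, one_mul]⟩)
    (by rw [hsum]; exact hx.1)
  set y : Fin e → ℕ := fun j => (J.filter (fun t => (E.symm t).1 = j)).card with hy
  have hval : val n y = ∑ t ∈ J, u t := by
    rw [← Finset.sum_fiberwise J (fun t => (E.symm t).1) u]
    unfold val
    refine Finset.sum_congr rfl fun j _ => ?_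
    have h2 : ∀ t ∈ J.filter (fun t => (E.symm t).1 = j), u t = n j := by
      intro t ht
      rw [hu]
      show n (E.symm t).1 = n j
      rw [(Finset.mem_filter.1 ht).2]
    rw [Finset.sum_congr rfl h2, Finset.sum_const, smul_eq_mul]
  have hlen : len y = J.card := by
    rw [Finset.card_eq_sum_card_fiberwise (f := fun t => (E.symm t).1) (t := univ)
      (fun t _ => Finset.mem_coe.2 (Finset.mem_univ _))]
    rfl
  have hle : y ≤ x := by
    intro j
    have h3 : (univ.filter (fun t => (E.symm t).1 = j)).card = x j := by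
      rw [Finset.card_filter]
      have h4 : ∑ t, (if (E.symm t).1 = j then 1 else 0) =
          ∑ p : (j : Fin e) × Fin (x j), (if p.1 = j then 1 else 0) :=
        Equiv.sum_comp E.symm (fun p : (j : Fin e) × Fin (x j) => if p.1 = j then 1 else 0)
      rw [h4, Fintype.sum_sigma, Finset.sum_eq_single j]
      · simp
      · intro l _ hl
        refine Finset.sum_eq_zero fun a _ => ?_
        exact if_neg hl
      · intro hh
        exact absurd (Finset.mem_univ j) hh
    rw [← h3]
    exact Finset.card_le_card (Finset.filter_subset_filter _ (Finset.subset_univ J))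
  have hyx := hx.2 y hle (by rw [hval]; exact hJ2)
  rw [← hyx, hlen]
  exact hJ1

theorem len_le_omega (h : NumSg S n) {i : Fin e} {x : Fin e → ℕ} (hx : Mn S n i x) :
    len x ≤ omega S n :=
  (len_le_om h hx).trans (Finset.le_sup (f := fun i => om S (n i)) (Finset.mem_univ i))

theorem omega_le (h : NumSg S n) {m : ℕ} (hm : 0 < m)
    (hb : ∀ i x, Mn S n i x → len x ≤ m) : omega S n ≤ m :=
  Finset.sup_le fun i _ => om_le h i hm (hb i)

/-- `ω(S) ≤ t(S)` for at least two generators -/
theorem omega_le_tame (h : NumSg S n) (he : ∀ i : Fin e, ∃ j, j ≠ i) :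
    (omega S n : ℕ∞) ≤ tame S n := by
  by_contra hcon
  push Not at hcon
  obtain ⟨N, hN⟩ := ENat.ne_top_iff_exists.1 (ne_top_of_lt hcon)
  rw [← hN] at hcon
  have hcon' : N < omega S n := by exact_mod_cast hcon
  have hpos : ∀ x i, Mn S n i x → x ≠ Pi.single i 1 → len x ≤ N := by
    intro x i hx hne
    obtain ⟨y, hy, hyi, hd⟩ := tame_use h (le_of_eq hN.symm) i x hx.1
    rw [dst_of_disj (disj h.gen hx hne hy hyi)] at hd
    exact (le_max_left _ _).trans hd
  by_cases hN0 : N = 0
  · -- impossible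
    have hem : omega S n ≠ 0 := by omega
    have hi : ∃ i : Fin e, True := by
      by_contra hh
      push Not at hh
      apply hem
      have h9 : omega S n ≤ 0 := Finset.sup_le fun i _ => (hh i).elim
      omega
    obtain ⟨i, -⟩ := hi
    obtain ⟨j, hj⟩ := he i
    have h3 : Dvd S (n i) (val n (Pi.single j (n i))) := by
      obtain ⟨a, ha⟩ : ∃ a, n j = a + 1 := ⟨n j - 1, by have := h.pos j; omega⟩
      refine ⟨a * n i, (mem_iff h.gen _).2 ⟨Pi.single i a, val_single n i a⟩, ?_⟩
      rw [val_single, ha]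
      ring
    obtain ⟨x, hx, hm⟩ := exists_min i _ h3
    have h4 : x i = 0 := by
      have h9 := hx i
      rw [Pi.single_eq_of_ne (fun hh => hj hh.symm)] at h9
      exact Nat.le_zero.1 h9
    have h5 : x ≠ Pi.single i 1 := by
      intro hh
      rw [hh, Pi.single_eq_same] at h4
      omega
    have h6 := hpos x i hm h5
    have h7 : x = 0 := by
      have h8 : len x = 0 := by omega
      refine (eq_of_len (x := 0) (y := x) (fun j => Nat.zero_le _) ?_).symm
      rw [h8]
      exact Nat.zero_le _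
    obtain ⟨r, -, hr⟩ := hm.1
    rw [h7, val_zero] at hr
    have := h.pos i
    omega
  · have h1 : omega S n ≤ N := by
      refine omega_le h (by omega) fun i x hx => ?_
      by_cases hne : x = Pi.single i 1
      · rw [hne, len_single]
        omega
      · exact hpos x i hx hne
    omega

/-- if `ω(S) ≠ t(S)`, then there is a minimal element with long factorizations -/
theorem exists_bad (h : NumSg S n) (he : ∀ i : Fin e, ∃ j, j ≠ i)
    (hne : (omega S n : ℕ∞) ≠ tame S n) :
    ∃ i x, Mn S n i x ∧ x ≠ Pi.single i 1 ∧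
      ∀ y ∈ Z n (val n x), y i ≠ 0 → omega S n < len y := by
  by_contra hcon
  apply hne
  refine le_antisymm (omega_le_tame h he) (tame_le fun i x hx => ?_)
  by_cases hx1 : x = Pi.single i 1
  · refine ⟨x, rfl, ?_, ?_⟩
    · rw [hx1, Pi.single_eq_same]
      exact one_ne_zero
    · rw [dst_self]
      exact Nat.zero_le _
  · have h1 : ∃ y ∈ Z n (val n x), y i ≠ 0 ∧ len y ≤ omega S n := by
      by_contra hh
      apply hcon
      refine ⟨i, x, hx, hx1, fun y hy hyi => ?_⟩
      by_contra hlt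
      exact hh ⟨y, hy, hyi, by omega⟩
    obtain ⟨y, hy, hyi, hl⟩ := h1
    refine ⟨y, hy, hyi, ?_⟩
    rw [dst_of_disj (disj h.gen hx hx1 hy hyi)]
    exact max_le (len_le_omega h hx) hl

end

end Pool.Agent.TDO
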