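import Pool.Agent.TDO.Gen

/-!
# Embedding dimension three
-/

set_option autoImplicit false

open Finset

namespace Pool.Agent.TDO

theorem rep_or {A B : ℕ} (hA : 1 < A) (hc : Nat.Coprime A B) (c : ℕ) :
    (∃ u v, v < A ∧ c = u * A + v * B) ∨ ∃ p q, c + p * A + q * B = A * B := by
  obtain ⟨m, -, hm⟩ := Nat.exists_mul_mod_eq_one_of_coprime hc.symm hA
  set v := (m * c) % A with hv
  have hvA : v < A := Nat.mod_lt _ (by omega)
  have h1 : (v * B) % A = c % A := by
    rw [hv, Nat.mod_mul_mod]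
    calc m * c * B % A = B * m * c % A := by ring_nf
      _ = (B * m % A) * c % A := by rw [Nat.mod_mul_mod]
      _ = c % A := by rw [hm, one_mul]
  rcases Nat.lt_or_ge c (v * B) with h2 | h2
  · right
    have h3 : A ∣ v * B - c := (Nat.modEq_iff_dvd' h2.le).1 h1.symm
    obtain ⟨p, hp⟩ := h3
    refine ⟨p, A - v, ?_⟩
    have h4 : v * B = c + p * A := by
      have : p * A = A * p := Nat.mul_comm _ _
      omega
    rw [← h4, ← add_mul, Nat.add_sub_cancel' hvA.le]
  · left
    have h3 : A ∣ c - v * B := (Nat.modEq_iff_dvd' h2).1 h1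
    obtain ⟨u, hu⟩ := h3
    refine ⟨u, v, hvA, ?_⟩
    have : u * A = A * u := Nat.mul_comm _ _
    omega

theorem sum3 {i j k : Fin 3} (hij : i ≠ j) (hik : i ≠ k) (hjk : j ≠ k) (f : Fin 3 → ℕ) :
    ∑ t, f t = f i + f j + f k := by
  have h : ∀ i j k : Fin 3, i ≠ j → i ≠ k → j ≠ k → (univ : Finset (Fin 3)) = {i, j, k} := by
    decide
  rw [h i j k hij hik hjk, Finset.sum_insert (by simp [hij, hik]),
    Finset.sum_insert (by simp [hjk]), Finset.sum_singleton, add_assoc]

theorem cases3 {i j k : Fin 3} (hij : i ≠ j) (hik : i ≠ k) (hjk : j ≠ k) (t : Fin 3) :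
    t = i ∨ t = j ∨ t = k := by
  revert i j k t
  decide

variable {S : AddSubmonoid ℕ} {n : Fin 3 → ℕ}

theorem mem3 (h : NumSg S n) {i j k : Fin 3} (hij : i ≠ j) (hik : i ≠ k) (hjk : j ≠ k) (s : ℕ) :
    s ∈ S ↔ ∃ a b c, a * n i + b * n j + c * n k = s := by
  rw [mem_iff h.gen]
  constructor
  · rintro ⟨x, rfl⟩
    exact ⟨x i, x j, x k, (sum3 hij hik hjk (fun t => x t * n t)).symm⟩
  · rintro ⟨a, b, c, rfl⟩
    refine ⟨Pi.single i a + Pi.single j b + Pi.single k c, ?_⟩
    rw [val_add, val_add, val_single, val_single, val_single]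

theorem dvd3 (h : NumSg S n) {i j k : Fin 3} (hij : i ≠ j) (hik : i ≠ k) (hjk : j ≠ k) (s : ℕ) :
    Dvd S (n i) s ↔ ∃ a b c, (a + 1) * n i + b * n j + c * n k = s := by
  constructor
  · rintro ⟨r, hr, rfl⟩
    obtain ⟨a, b, c, rfl⟩ := (mem3 h hij hik hjk r).1 hr
    exact ⟨a, b, c, by ring⟩
  · rintro ⟨a, b, c, rfl⟩
    exact ⟨_, (mem3 h hij hik hjk _).2 ⟨a, b, c, rfl⟩, by ring⟩

theorem NumSg.one {e : ℕ} {n : Fin e → ℕ} (h : NumSg S n) {d : ℕ} (hd : ∀ t, d ∣ n t) : d = 1 := by
  have h1 : ∀ s ∈ S, d ∣ s := by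
    intro s hs
    obtain ⟨x, rfl⟩ := (mem_iff h.gen s).1 hs
    exact Finset.dvd_sum fun i _ => Dvd.dvd.mul_left (hd i) _
  obtain ⟨N, hN⟩ := h.fin.bddAbove
  have h2 : ∀ s, N < s → s ∈ S := by
    intro s hs
    by_contra hcon
    have := hN (show s ∈ ((S : Set ℕ)ᶜ) from hcon)
    omega
  have h3 := h1 _ (h2 (N + 1) (by omega))
  have h4 := h1 _ (h2 (N + 2) (by omega))
  exact Nat.dvd_one.1 ((Nat.dvd_add_right h3).1 (by
    have : N + 1 + 1 = N + 2 := rfl
    rw [this]
    exact h4))

theorem NumSg.ne_mul {e : ℕ} {n : Fin e → ℕ} (h : NumSg S n) {j k : Fin e} (hjk : k ≠ j) (a : ℕ) :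
    n j ≠ a * n k := by
  intro hh
  apply h.min j
  rw [hh, ← smul_eq_mul]
  exact AddSubmonoid.nsmul_mem _ (AddSubmonoid.subset_closure
    (Set.mem_image_of_mem n (show k ∈ ({j} : Set (Fin e))ᶜ from hjk))) _

/-- the conditions on the parameters -/
def Par (g A B u v : ℕ) : Prop :=
  Nat.Coprime A B ∧ 2 ≤ A ∧ 2 ≤ B ∧ 1 ≤ u ∧ 1 ≤ v ∧ v < A ∧ u + v + B < g + A ∧
    2 * v + A * ((u + B - 1) / B) < g + A

theorem ceil_le {u B s : ℕ} (hB : 0 < B) (h : u ≤ B * s) : (u + B - 1) / B ≤ s := by
  refine Nat.le_of_lt_succ ((Nat.div_lt_iff_lt_mul hB).2 ?_)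
  have h1 : (s + 1) * B = B * s + B := by ring
  show u + B - 1 < (s + 1) * B
  rw [h1]
  omega

theorem le_ceil {u B : ℕ} (hB : 0 < B) : u ≤ B * ((u + B - 1) / B) := by
  have h1 := Nat.div_add_mod (u + B - 1) B
  have h2 := Nat.mod_lt (u + B - 1) hB
  omega

theorem three_mp (h : NumSg S n) (hne : (omega S n : ℕ∞) ≠ tame S n) :
    ∃ g A B u v : ℕ, Set.range n = {g * A, g * B, u * A + v * B} ∧ Par g A B u v := by
  have he : ∀ i : Fin 3, ∃ j, j ≠ i := by decide
  obtain ⟨i, x, hx, hxne, hbad⟩ := exists_bad h he hne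
  obtain ⟨y₀, hy₀, hy₀i⟩ := (dvd_iff h.gen i _).1 hx.1
  have hxi : x i = 0 := (disj h.gen hx hxne hy₀ hy₀i i).resolve_right hy₀i
  -- no sum `n_i + n_j + r`
  have K1 : ∀ j, j ≠ i → x j ≠ 0 → ∀ r ∈ S, n i + n j + r ≠ val n x := by
    intro j hj hxj r hr hh
    have hle : (Pi.single j 1 : Fin 3 → ℕ) ≤ x := single_le (Nat.one_le_iff_ne_zero.2 hxj)
    have h1 := sub_add_self' hle
    have h2 : val n x = val n (x - Pi.single j 1) + n j := by
      conv_lhs => rw [← h1, val_add, val_single, one_mul]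
    have h3 : Dvd S (n i) (val n (x - Pi.single j 1)) := ⟨r, hr, by omega⟩
    have h4 := congrFun (hx.2 _ (fun l => Nat.sub_le _ _) h3) j
    have h5 : x j - (Pi.single j 1 : Fin 3 → ℕ) j = x j := h4
    rw [Pi.single_eq_same] at h5
    omega
  -- smaller elements
  have K2 : ∀ (a b : Fin 3) (y y' : Fin 3 → ℕ), y' ≤ y → y' a < y a → Dvd S (n b) (val n y') →
      ∃ r ∈ S, n a + n b + r = val n y := by
    intro a b y y' hyy hlt hd
    obtain ⟨r, hr, hr2⟩ := hd
    have h1 := sub_add_self' hyy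
    have h2 : (Pi.single a 1 : Fin 3 → ℕ) ≤ y - y' :=
      single_le (show 1 ≤ y a - y' a by omega)
    have h3 := sub_add_self' h2
    refine ⟨r + val n (y - y' - Pi.single a 1), S.add_mem hr ((mem_iff h.gen _).2 ⟨_, rfl⟩), ?_⟩
    have h4 : val n y = val n (y - y') + val n y' := by
      conv_lhs => rw [← h1, val_add]
    have h5 : val n (y - y') = val n (y - y' - Pi.single a 1) + n a := by
      conv_lhs => rw [← h3, val_add, val_single, one_mul]
    omega
  have hnot : ∀ j, j ≠ i → x j ≠ 0 → ∀ y ∈ Z n (val n x), y i ≠ 0 →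
      ∃ y', y' ≤ y ∧ y' i = y i ∧ y' ≠ y ∧ Dvd S (n j) (val n y') := by
    intro j hj hxj y hy hyi
    have hyv : val n y = val n x := hy
    have h1 : Dvd S (n j) (val n y) := (dvd_iff h.gen j _).2 ⟨x, by rw [hyv]; rfl, hxj⟩
    by_contra hcon
    have h2 : Mn S n j y := by
      refine ⟨h1, fun y' hy' hd => ?_⟩
      by_contra hne'
      rcases Nat.lt_or_ge (y' i) (y i) with h3 | h3
      · obtain ⟨r, hr, hr2⟩ := K2 i j y y' hy' h3 hd
        exact K1 j hj hxj r hr (by rw [hr2, hyv])
      · exact hcon ⟨y', hy', le_antisymm (hy' i) h3, hne', hd⟩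
    have h3 := len_le_omega h h2
    have h4 := hbad y hy hyi
    omega
  -- the support of `x`
  have hsupp : ∃ j k, i ≠ j ∧ i ≠ k ∧ j ≠ k ∧ x j ≠ 0 ∧ x k = 0 := by
    have hex : ∀ i : Fin 3, ∃ j k : Fin 3, i ≠ j ∧ i ≠ k ∧ j ≠ k := by decide
    obtain ⟨j, k, hij, hik, hjk⟩ := hex i
    by_cases h1 : x j = 0
    · by_cases h2 : x k = 0
      · exfalso
        have h3 : val n x = 0 := by
          unfold val
          rw [sum3 hij hik hjk, hxi, h1, h2]
          simp
        obtain ⟨r, -, hr⟩ := hx.1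
        have := h.pos i
        omega
      · exact ⟨k, j, hik, hij, hjk.symm, h2, h1⟩
    · by_cases h2 : x k = 0
      · exact ⟨j, k, hij, hik, hjk, h1, h2⟩
      · exfalso
        have h3 : y₀ j = 0 := (disj h.gen hx hxne hy₀ hy₀i j).resolve_left h1
        have h4 : y₀ k = 0 := (disj h.gen hx hxne hy₀ hy₀i k).resolve_left h2
        obtain ⟨y', hy', hy'i, hne', -⟩ := hnot j hij.symm h1 y₀ hy₀ hy₀i
        apply hne'
        funext t
        rcases cases3 hij hik hjk t with rfl | rfl | rfl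
        · exact hy'i
        · have h9 : y' t ≤ y₀ t := hy' t
          omega
        · have h9 : y' t ≤ y₀ t := hy' t
          omega
  obtain ⟨j, k, hij, hik, hjk, hxj, hxk⟩ := hsupp
  obtain ⟨X, hX⟩ : ∃ X, x j = X := ⟨_, rfl⟩
  have hvx : val n x = X * n j := by
    unfold val
    rw [sum3 hij hik hjk, hxi, hxk, hX, zero_mul, zero_mul, zero_add, add_zero]
  have hlx : len x = X := by
    unfold len
    rw [sum3 hij hik hjk, hxi, hxk, hX, zero_add, add_zero]
  have hpi := h.pos i
  have hpj := h.pos j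
  have hpk := h.pos k
  -- smaller multiples of `n_j`
  have hsm : ∀ c, c < X → ¬ Dvd S (n i) (c * n j) := by
    intro c hc hd
    have h1 := hx.2 (Pi.single j c) (single_le (by omega)) (by rw [val_single]; exact hd)
    have h2 := congrFun h1 j
    rw [Pi.single_eq_same] at h2
    omega
  -- all factorizations
  have hfac : ∀ y ∈ Z n (val n x), y i ≠ 0 → y j = 0 ∧ y k ≠ 0 ∧
      ∃ r ∈ S, n k + n j + r = val n x := by
    intro y hy hyi
    have h1 : y j = 0 := (disj h.gen hx hxne hy hyi j).resolve_left hxj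
    obtain ⟨y', hy', hy'i, hne', hd⟩ := hnot j hij.symm hxj y hy hyi
    have h2 : y' k < y k := by
      by_contra hlt
      apply hne'
      funext t
      rcases cases3 hij hik hjk t with rfl | rfl | rfl
      · exact hy'i
      · have h9 : y' t ≤ y t := hy' t
        omega
      · have h9 : y' t ≤ y t := hy' t
        omega
    obtain ⟨r, hr, hr2⟩ := K2 k j y y' hy' h2 hd
    have hyv : val n y = val n x := hy
    exact ⟨h1, by omega, r, hr, by rw [hr2, hyv]⟩
  obtain ⟨hy₀j, hy₀k, r, hr, hr2⟩ := hfac y₀ hy₀ hy₀i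
  -- `n_j` and `n_k`
  obtain ⟨c', d, hc'X, hc'⟩ : ∃ c' d, c' < X ∧ c' * n j = (d + 1) * n k := by
    obtain ⟨a, b, d, rfl⟩ := (mem3 h hij hik hjk r).1 hr
    rw [hvx] at hr2
    obtain ⟨X', hX'⟩ : ∃ X', X = X' + 1 := ⟨X - 1, by omega⟩
    have e1 : (X' + 1) * n j = X' * n j + n j := by ring
    rw [hX', e1] at hr2
    have e2 : (d + 1) * n k = d * n k + n k := by ring
    have ha : a = 0 := by
      by_contra ha
      obtain ⟨a', rfl⟩ : ∃ a', a = a' + 1 := ⟨a - 1, by omega⟩
      apply hsm X' (by omega)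
      rw [dvd3 h hij hik hjk]
      exact ⟨a', b, d + 1, by omega⟩
    subst ha
    have hb : b ≤ X' := by
      by_contra hb
      push Not at hb
      have : X' * n j ≤ b * n j := Nat.mul_le_mul_right _ hb.le
      omega
    obtain ⟨c', rfl⟩ := Nat.exists_eq_add_of_le hb
    refine ⟨c', d, by omega, ?_⟩
    have e3 : (b + c') * n j = b * n j + c' * n j := by ring
    omega
  obtain ⟨A, B, hAB, hnj, hnk⟩ := Nat.exists_coprime (n j) (n k)
  set g := Nat.gcd (n j) (n k) with hg
  have hg0 : 0 < g := Nat.gcd_pos_of_pos_left _ hpj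
  have hA0 : A ≠ 0 := by
    rintro rfl
    omega
  have hB0 : B ≠ 0 := by
    rintro rfl
    omega
  have hA1 : A ≠ 1 := by
    rintro rfl
    apply h.ne_mul (j := k) (k := j) hjk B
    rw [hnk, hnj, one_mul]
  have hB1 : B ≠ 1 := by
    rintro rfl
    apply h.ne_mul (j := j) (k := k) hjk.symm A
    rw [hnk, hnj, one_mul]
  have hBX : B < X := by
    have h1 : c' * A = (d + 1) * B := by
      apply Nat.eq_of_mul_eq_mul_right hg0
      rw [mul_assoc, mul_assoc, ← hnj, ← hnk]
      exact hc'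
    have h2 : B ∣ c' := by
      have h3 : B ∣ c' * A := ⟨d + 1, by rw [h1, mul_comm]⟩
      exact hAB.symm.dvd_of_dvd_mul_right h3
    have h3 : 0 < c' := by
      rcases Nat.eq_zero_or_pos c' with h4 | h4
      · rw [h4, zero_mul] at h1
        have : 0 < (d + 1) * B := Nat.mul_pos (by omega) (by omega)
        omega
      · exact h4
    exact lt_of_le_of_lt (Nat.le_of_dvd h3 h2) hc'X
  have hcop : Nat.Coprime g (n i) := by
    refine h.one fun t => ?_
    rcases cases3 hij hik hjk t with rfl | rfl | rfl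
    · exact Nat.gcd_dvd_right _ _
    · rw [hnj]
      exact (Nat.gcd_dvd_left _ _).mul_left _
    · rw [hnk]
      exact (Nat.gcd_dvd_left _ _).mul_left _
  -- `n_i` is in the semigroup generated by `A`, `B`
  obtain ⟨g', hg'⟩ : ∃ g', g = g' + 1 := ⟨g - 1, by omega⟩
  obtain ⟨u, v, hvA, hni⟩ : ∃ u v, v < A ∧ n i = u * A + v * B := by
    rcases rep_or (by omega) hAB (n i) with h1 | ⟨p, q, h1⟩
    · exact h1
    · exfalso
      apply hsm B hBX
      rw [dvd3 h hij hik hjk]
      refine ⟨g', p, q, ?_⟩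
      rw [← hg']
      have e1 : B * n j = (A * B) * g := by
        rw [hnj]
        ring
      have e2 : q * n k = q * B * g := by
        rw [hnk]
        ring
      have e3 : p * n j = p * A * g := by
        rw [hnj]
        ring
      rw [e1, ← h1, e2, e3]
      ring
  -- the factorizations of `X n_j`
  have hy₀v : y₀ i * n i + y₀ k * n k = X * n j := by
    have h1 : val n y₀ = X * n j := by
      have h2 : val n y₀ = val n x := hy₀
      rw [h2, hvx]
    unfold val at h1
    rw [sum3 hij hik hjk, hy₀j, zero_mul, add_zero] at h1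
    exact h1
  obtain ⟨t, ht⟩ : g ∣ y₀ i := by
    have h1 : g ∣ y₀ i * n i := by
      have h2 : g ∣ y₀ k * n k := by
        rw [hnk]
        exact ⟨y₀ k * B, by ring⟩
      have h3 : g ∣ y₀ i * n i + y₀ k * n k := by
        rw [hy₀v, hnj]
        exact ⟨X * A, by ring⟩
      exact (Nat.dvd_add_left h2).1 h3
    exact hcop.dvd_of_dvd_mul_right h1
  have ht1 : 1 ≤ t := by
    rcases Nat.eq_zero_or_pos t with h1 | h1
    · rw [h1, mul_zero] at ht
      exact absurd ht hy₀i
    · exact h1
  have hXA : t * n i + y₀ k * B = X * A := by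
    apply Nat.eq_of_mul_eq_mul_right hg0
    calc (t * n i + y₀ k * B) * g = (g * t) * n i + y₀ k * (B * g) := by ring
      _ = X * n j := by rw [← ht, ← hnk, hy₀v]
      _ = X * A * g := by rw [mul_assoc, ← hnj]
  obtain ⟨s, hs⟩ : A ∣ t * v + y₀ k := by
    have h1 : A ∣ (t * v + y₀ k) * B := by
      have h2 : (t * v + y₀ k) * B + t * u * A = X * A := by
        rw [← hXA, hni]
        ring
      have h3 : A ∣ (t * v + y₀ k) * B + t * u * A := by
        rw [h2]
        exact ⟨X, by ring⟩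
      exact (Nat.dvd_add_left ⟨t * u, by ring⟩).1 h3
    exact hAB.dvd_of_dvd_mul_right h1
  have hs1 : 1 ≤ s := by
    rcases Nat.eq_zero_or_pos s with h1 | h1
    · rw [h1, mul_zero] at hs
      omega
    · exact h1
  have hXs : X = t * u + B * s := by
    apply Nat.eq_of_mul_eq_mul_right (show 0 < A by omega)
    rw [← hXA, hni]
    calc t * (u * A + v * B) + y₀ k * B = t * u * A + (t * v + y₀ k) * B := by ring
      _ = (t * u + B * s) * A := by rw [hs]; ring
  have htu : u ≤ t * u := Nat.le_mul_of_pos_left _ ht1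
  have hBs : B ≤ B * s := Nat.le_mul_of_pos_right _ hs1
  have hv1 : 1 ≤ v := by
    by_contra hv0
    have hv00 : v = 0 := by omega
    have hlt : u < X := by omega
    apply hsm u hlt
    rw [dvd3 h hij hik hjk]
    refine ⟨g', 0, 0, ?_⟩
    rw [← hg', hni, hv00, hnj]
    ring
  obtain ⟨m, hm⟩ : ∃ m, A = v + m := ⟨A - v, by omega⟩
  have hXle : X ≤ u + B := by
    by_contra hlt
    push Not at hlt
    apply hsm (u + B) hlt
    rw [dvd3 h hij hik hjk]
    refine ⟨g', 0, m, ?_⟩
    rw [← hg', hni, hnj, hnk]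
    have e1 : (u + B) * (A * g) = u * A * g + B * g * A := by ring
    rw [e1]
    conv_rhs => rw [show B * g * A = B * g * (v + m) by rw [← hm]]
    ring
  have hXeq : X = u + B := by omega
  have hu1 : 1 ≤ u := by omega
  -- the long factorization
  have hz : (Pi.single i g + Pi.single k m : Fin 3 → ℕ) ∈ Z n (val n x) := by
    show val n (Pi.single i g + Pi.single k m) = val n x
    rw [val_add, val_single, val_single, hvx, hXeq, hni, hnj, hnk]
    have e1 : (u + B) * (A * g) = u * A * g + B * g * A := by ring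
    rw [e1]
    conv_rhs => rw [show B * g * A = B * g * (v + m) by rw [← hm]]
    ring
  have hzi : (Pi.single i g + Pi.single k m : Fin 3 → ℕ) i ≠ 0 := by
    rw [Pi.add_apply, Pi.single_eq_same, Pi.single_eq_of_ne hik]
    omega
  have hzl := hbad _ hz hzi
  rw [len_add, len_single, len_single] at hzl
  have hw1 := len_le_omega h hx
  rw [hlx, hXeq] at hw1
  -- a long minimal element
  have hbeta : v + A * ((u + B - 1) / B) ≤ omega S n := by
    have h1 : Dvd S (n i) (val n (Pi.single k (n i))) := by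
      rw [val_single]
      obtain ⟨a, ha⟩ : ∃ a, n k = a + 1 := ⟨n k - 1, by omega⟩
      rw [dvd3 h hij hik hjk]
      refine ⟨a, 0, 0, ?_⟩
      rw [ha]
      ring
    obtain ⟨x', hx', hm'⟩ := exists_min i _ h1
    have hx'i : x' i = 0 := by
      have h9 := hx' i
      rw [Pi.single_eq_of_ne hik] at h9
      exact Nat.le_zero.1 h9
    have hx'j : x' j = 0 := by
      have h9 := hx' j
      rw [Pi.single_eq_of_ne hjk] at h9
      exact Nat.le_zero.1 h9
    have hvx' : val n x' = x' k * n k := by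
      unfold val
      rw [sum3 hij hik hjk, hx'i, hx'j]
      simp
    have hlx' : len x' = x' k := by
      unfold len
      rw [sum3 hij hik hjk, hx'i, hx'j]
      simp
    have hd' := hm'.1
    rw [hvx', dvd3 h hij hik hjk] at hd'
    obtain ⟨a, b, d', hd'⟩ := hd'
    have hd0 : d' = 0 := by
      by_contra hd0
      obtain ⟨d'', rfl⟩ : ∃ d'', d' = d'' + 1 := ⟨d' - 1, by omega⟩
      have e0 : x' k ≠ 0 := by
        intro e0
        rw [e0, zero_mul] at hd'
        have : 0 < (a + 1) * n i := Nat.mul_pos (by omega) hpi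
        omega
      obtain ⟨β, hβ⟩ : ∃ β, x' k = β + 1 := ⟨x' k - 1, by omega⟩
      have h2 := hm'.2 (Pi.single k β) (single_le (by omega)) (by
        rw [val_single, dvd3 h hij hik hjk]
        refine ⟨a, b, d'', ?_⟩
        rw [hβ] at hd'
        have e1 : (β + 1) * n k = β * n k + n k := by ring
        have e2 : (d'' + 1) * n k = d'' * n k + n k := by ring
        omega)
      have h3 := congrFun h2 k
      rw [Pi.single_eq_same] at h3
      omega
    rw [hd0, zero_mul, add_zero] at hd'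
    obtain ⟨t', ht'⟩ : g ∣ a + 1 := by
      have h2 : g ∣ (a + 1) * n i := by
        have h3 : g ∣ b * n j := by
          rw [hnj]
          exact ⟨b * A, by ring⟩
        have h4 : g ∣ (a + 1) * n i + b * n j := by
          rw [hd', hnk]
          exact ⟨x' k * B, by ring⟩
        exact (Nat.dvd_add_left h3).1 h4
      exact hcop.dvd_of_dvd_mul_right h2
    have ht'1 : 1 ≤ t' := by
      rcases Nat.eq_zero_or_pos t' with h2 | h2
      · rw [h2, mul_zero] at ht'
        omega
      · exact h2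
    have hBA : t' * n i + b * A = x' k * B := by
      apply Nat.eq_of_mul_eq_mul_right hg0
      calc (t' * n i + b * A) * g = (g * t') * n i + b * (A * g) := by ring
        _ = x' k * n k := by rw [← ht', ← hnj, hd']
        _ = x' k * B * g := by rw [mul_assoc, ← hnk]
    obtain ⟨s', hs'⟩ : B ∣ t' * u + b := by
      have h2 : B ∣ (t' * u + b) * A := by
        have h3 : (t' * u + b) * A + t' * v * B = x' k * B := by
          rw [← hBA, hni]
          ring
        have h4 : B ∣ (t' * u + b) * A + t' * v * B := by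
          rw [h3]
          exact ⟨x' k, by ring⟩
        exact (Nat.dvd_add_left ⟨t' * v, by ring⟩).1 h4
      exact hAB.symm.dvd_of_dvd_mul_right h2
    have hxs : x' k = t' * v + A * s' := by
      apply Nat.eq_of_mul_eq_mul_right (show 0 < B by omega)
      rw [← hBA, hni]
      calc t' * (u * A + v * B) + b * A = t' * v * B + (t' * u + b) * A := by ring
        _ = (t' * v + A * s') * B := by rw [hs']; ring
    have hus : u ≤ B * s' := by
      have : u ≤ t' * u := Nat.le_mul_of_pos_left _ ht'1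
      omega
    have h2 := ceil_le (show 0 < B by omega) hus
    have h3 : A * ((u + B - 1) / B) ≤ A * s' := Nat.mul_le_mul_left _ h2
    have h4 : v ≤ t' * v := Nat.le_mul_of_pos_left _ ht'1
    have h5 := len_le_omega h hm'
    rw [hlx'] at h5
    omega
  refine ⟨g, A, B, u, v, ?_, hAB, by omega, by omega, hu1, hv1, hvA, by omega, by omega⟩
  ext w
  constructor
  · rintro ⟨t, rfl⟩
    rcases cases3 hij hik hjk t with rfl | rfl | rfl
    · exact Or.inr (Or.inr hni)
    · exact Or.inl (by rw [hnj, mul_comm])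
    · exact Or.inr (Or.inl (by rw [hnk, mul_comm]))
  · rintro (rfl | rfl | hw)
    · exact ⟨j, by rw [hnj, mul_comm]⟩
    · exact ⟨k, by rw [hnk, mul_comm]⟩
    · exact ⟨i, by rw [hni]; exact hw.symm⟩

end Pool.Agent.TDO
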