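import Pool.Agent.TDO.Three

/-!
# Embedding dimension three, the other direction
-/

set_option autoImplicit false

open Finset

namespace Pool.Agent.TDO

/-- no representation -/
theorem no_rep {A B g u v p q : ℕ} (_hB : 0 < B) (hAB : Nat.Coprime A B)
    (hg : Nat.Coprime g (u * A + v * B)) (hg0 : 0 < g) (hA : 0 < A) (hp : p < g) (hq : q < A)
    (a b c : ℕ) (h : (a + 1) * (A * g) + b * (u * A + v * B) + c * (B * g) =
      p * (u * A + v * B) + q * (B * g)) : False := by
  set N := u * A + v * B with hN
  have h1 : b * N ≡ p * N [MOD g] := by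
    have h2 : (a + 1) * (A * g) + b * N + c * (B * g) ≡ b * N [MOD g] := by
      unfold Nat.ModEq
      have e : (a + 1) * (A * g) + b * N + c * (B * g) = b * N + g * ((a + 1) * A + c * B) := by
        ring
      rw [e, Nat.add_mul_mod_self_left]
    have h3 : p * N + q * (B * g) ≡ p * N [MOD g] := by
      unfold Nat.ModEq
      have e : p * N + q * (B * g) = p * N + g * (q * B) := by ring
      rw [e, Nat.add_mul_mod_self_left]
    rw [h] at h2
    exact h2.symm.trans h3
  have h2 : b ≡ p [MOD g] := Nat.ModEq.cancel_right_of_coprime hg h1
  have h3 : b % g = p := by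
    have : b % g = p % g := h2
    rw [this, Nat.mod_eq_of_lt hp]
  have h4 := Nat.div_add_mod b g
  rw [h3] at h4
  set s := b / g
  have h5 : q * B = (a + 1) * A + s * N + c * B := by
    apply Nat.eq_of_mul_eq_mul_right hg0
    have e1 : b * N = g * s * N + p * N := by rw [← h4]; ring
    have e2 : (a + 1) * (A * g) = (a + 1) * A * g := by ring
    have e3 : c * (B * g) = c * B * g := by ring
    have e4 : q * (B * g) = q * B * g := by ring
    have e5 : ((a + 1) * A + s * N + c * B) * g = (a + 1) * A * g + g * s * N + c * B * g := by ring
    omega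
  have h6 : q * B = (a + 1 + s * u) * A + (s * v + c) * B := by
    rw [h5, hN]
    ring
  have h7 : s * v + c < q := by
    by_contra hlt
    push Not at hlt
    have h8 : q * B ≤ (s * v + c) * B := Nat.mul_le_mul_right _ hlt
    have h9 : 0 < (a + 1 + s * u) * A := Nat.mul_pos (by omega) hA
    omega
  obtain ⟨r, hr⟩ := Nat.exists_eq_add_of_lt h7
  have h8 : (r + 1) * B = (a + 1 + s * u) * A := by
    have e : q * B = (s * v + c) * B + (r + 1) * B := by rw [hr]; ring
    omega
  have h9 : A ∣ (r + 1) * B := ⟨a + 1 + s * u, by rw [h8, mul_comm]⟩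
  have h10 := Nat.le_of_dvd (by omega) (hAB.dvd_of_dvd_mul_right h9)
  omega

variable {S : AddSubmonoid ℕ} {n : Fin 3 → ℕ}

theorem Mn.single {t : Fin 3} {x : Fin 3 → ℕ} (hx : Mn S n t x) (h : x t ≠ 0) :
    x = Pi.single t 1 := by
  refine (hx.2 _ (single_le (Nat.one_le_iff_ne_zero.2 h)) ?_).symm
  exact ⟨0, S.zero_mem, by rw [val_single, one_mul, add_zero]⟩

theorem Mn.mult {t l : Fin 3} {x : Fin 3 → ℕ} (hx : Mn S n t x) {c : ℕ} (h : c ≤ x l)
    (hd : Dvd S (n t) (c * n l)) : x = Pi.single l c :=
  (hx.2 _ (single_le h) (by rw [val_single]; exact hd)).symm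

theorem three_mpr (h : NumSg S n) {g A B u v : ℕ}
    (hr : Set.range n = {g * A, g * B, u * A + v * B}) (hp : Par g A B u v) :
    (omega S n : ℕ∞) ≠ tame S n := by
  obtain ⟨hAB, hA2, hB2, hu, hv, hvA, hc1, hc2⟩ := hp
  obtain ⟨κ, hκ⟩ : ∃ κ, (u + B - 1) / B = κ := ⟨_, rfl⟩
  have hκu : u ≤ B * κ := by
    rw [← hκ]
    exact le_ceil (by omega)
  rw [hκ] at hc2
  have hκ1 : 1 ≤ κ := by
    rcases Nat.eq_zero_or_pos κ with h1 | h1
    · rw [h1, mul_zero] at hκu
      omega
    · exact h1
  have hAκ : A ≤ A * κ := Nat.le_mul_of_pos_right _ hκ1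
  obtain ⟨m, hm⟩ : ∃ m, A = v + m := ⟨A - v, by omega⟩
  obtain ⟨N, hN⟩ : ∃ N, u * A + v * B = N := ⟨_, rfl⟩
  have hg0 : 0 < g := by omega
  -- indices
  obtain ⟨j, hj⟩ : ∃ j, n j = g * A := by
    have : g * A ∈ Set.range n := by
      rw [hr]
      exact Or.inl rfl
    exact this
  obtain ⟨k, hk⟩ : ∃ k, n k = g * B := by
    have : g * B ∈ Set.range n := by
      rw [hr]
      exact Or.inr (Or.inl rfl)
    exact this
  obtain ⟨i, hi⟩ : ∃ i, n i = u * A + v * B := by
    have : u * A + v * B ∈ Set.range n := by
      rw [hr]
      exact Or.inr (Or.inr rfl)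
    exact this
  have hall : ∀ t, n t = g * A ∨ n t = g * B ∨ n t = u * A + v * B := by
    intro t
    have : n t ∈ Set.range n := ⟨t, rfl⟩
    rw [hr] at this
    exact this
  have h01 : n 0 < n 1 := h.mono (by decide)
  have h12 : n 1 < n 2 := h.mono (by decide)
  have hjk : j ≠ k := by
    rintro rfl
    have h1 : g * A = g * B := by rw [← hj, ← hk]
    have h2 : A = B := Nat.eq_of_mul_eq_mul_left hg0 h1
    rw [h2, Nat.coprime_self] at hAB
    omega
  have hij : i ≠ j := by
    rintro rfl
    have h1 := hall 0
    have h2 := hall 1
    have h3 := hall 2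
    rw [← hi, hj] at h1 h2 h3
    omega
  have hik : i ≠ k := by
    rintro rfl
    have h1 := hall 0
    have h2 := hall 1
    have h3 := hall 2
    rw [← hi, hk] at h1 h2 h3
    omega
  rw [mul_comm] at hj hk
  rw [hN] at hi
  have hcop : Nat.Coprime g (u * A + v * B) := by
    refine h.one fun t => ?_
    rcases cases3 hij hik hjk t with rfl | rfl | rfl
    · rw [hi, ← hN]
      exact Nat.gcd_dvd_right _ _
    · rw [hj]
      exact (Nat.gcd_dvd_left _ _).mul_left _
    · rw [hk]
      exact (Nat.gcd_dvd_left _ _).mul_left _
  have hcop' : Nat.Coprime g N := by rw [← hN]; exact hcop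
  have hv3 : ∀ x : Fin 3 → ℕ, val n x = x i * N + x j * (A * g) + x k * (B * g) := by
    intro x
    unfold val
    rw [sum3 hij hik hjk, hi, hj, hk]
  have hl3 : ∀ x : Fin 3 → ℕ, len x = x i + x j + x k := by
    intro x
    unfold len
    rw [sum3 hij hik hjk]
  obtain ⟨g', hg'⟩ : ∃ g', g = g' + 1 := ⟨g - 1, by omega⟩
  -- some divisibilities
  have dα : Dvd S (n i) ((u + B) * n j) := by
    rw [dvd3 h hij hik hjk]
    refine ⟨g', 0, m, ?_⟩
    rw [← hg', hi, hj, hk, ← hN]
    have e1 : (u + B) * (A * g) = u * A * g + B * g * A := by ring
    rw [e1]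
    conv_rhs => rw [show B * g * A = B * g * (v + m) by rw [← hm]]
    ring
  have dβ : Dvd S (n i) ((v + A * κ) * n k) := by
    rw [dvd3 h hij hik hjk]
    obtain ⟨r, hr⟩ := Nat.exists_eq_add_of_le hκu
    refine ⟨g', r, 0, ?_⟩
    rw [← hg', hi, hj, hk, ← hN]
    have e1 : (v + A * κ) * (B * g) = v * B * g + A * g * (B * κ) := by ring
    rw [e1, hr]
    ring
  have hom : omega S n ≤ g + m - 1 := by
    refine omega_le h (by omega) fun t x hx => ?_
    by_cases hxt : x t ≠ 0
    · rw [hx.single hxt, len_single]
      omega
    · push Not at hxt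
      have hd := hx.1
      rcases cases3 hij hik hjk t with ht | ht | ht
      · -- the generator `N`
        subst ht
        by_cases hxk : x k = 0
        · rcases Nat.lt_or_ge (x j) (u + B) with h1 | h1
          · rw [hl3, hxt, hxk]
            omega
          · rw [hx.mult h1 dα, len_single]
            omega
        · by_cases hxj : x j = 0
          · rcases Nat.lt_or_ge (x k) (v + A * κ) with h1 | h1
            · rw [hl3, hxt, hxj]
              omega
            · rw [hx.mult h1 dβ, len_single]
              omega
          · -- mixed elements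
            have key : ∀ a b c, (a + 1) * n t + b * n j + c * n k = val n x → b = 0 ∧ c = 0 := by
              intro a b c he
              constructor
              · by_contra hb
                obtain ⟨b', rfl⟩ : ∃ b', b = b' + 1 := ⟨b - 1, by omega⟩
                have hle : (Pi.single j 1 : Fin 3 → ℕ) ≤ x :=
                  single_le (Nat.one_le_iff_ne_zero.2 hxj)
                have h1 := sub_add_self' hle
                have h2 : val n x = val n (x - Pi.single j 1) + n j := by
                  conv_lhs => rw [← h1, val_add, val_single, one_mul]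
                have h3 : Dvd S (n t) (val n (x - Pi.single j 1)) := by
                  rw [dvd3 h hij hik hjk]
                  have e1 : (b' + 1) * n j = b' * n j + n j := by ring
                  exact ⟨a, b', c, by omega⟩
                have h4 := congrFun (hx.2 _ (fun l => Nat.sub_le _ _) h3) j
                have h5 : x j - (Pi.single j 1 : Fin 3 → ℕ) j = x j := h4
                rw [Pi.single_eq_same] at h5
                omega
              · by_contra hb
                obtain ⟨c', rfl⟩ : ∃ c', c = c' + 1 := ⟨c - 1, by omega⟩
                have hle : (Pi.single k 1 : Fin 3 → ℕ) ≤ x :=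
                  single_le (Nat.one_le_iff_ne_zero.2 hxk)
                have h1 := sub_add_self' hle
                have h2 : val n x = val n (x - Pi.single k 1) + n k := by
                  conv_lhs => rw [← h1, val_add, val_single, one_mul]
                have h3 : Dvd S (n t) (val n (x - Pi.single k 1)) := by
                  rw [dvd3 h hij hik hjk]
                  have e1 : (c' + 1) * n k = c' * n k + n k := by ring
                  exact ⟨a, b, c', by omega⟩
                have h4 := congrFun (hx.2 _ (fun l => Nat.sub_le _ _) h3) k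
                have h5 : x k - (Pi.single k 1 : Fin 3 → ℕ) k = x k := h4
                rw [Pi.single_eq_same] at h5
                omega
            obtain ⟨a, b, c, he⟩ := (dvd3 h hij hik hjk _).1 hd
            obtain ⟨hb, hc⟩ := key a b c he
            rw [hb, hc, zero_mul, zero_mul, add_zero, add_zero, hi, hv3, hxt, zero_mul,
              zero_add] at he
            obtain ⟨s, hs⟩ : g ∣ a + 1 := by
              refine hcop'.dvd_of_dvd_mul_right ?_
              rw [he]
              exact ⟨x j * A + x k * B, by ring⟩
            have hs1 : 1 ≤ s := by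
              rcases Nat.eq_zero_or_pos s with h2 | h2
              · rw [h2, mul_zero] at hs
                omega
              · exact h2
            obtain ⟨s', rfl⟩ : ∃ s', s = s' + 1 := ⟨s - 1, by omega⟩
            have hs0 : s' = 0 := by
              have h1 := (key g' (s' * u) (s' * v) (by
                rw [← hg', hi, hj, hk, hv3, hxt, zero_mul, zero_add, ← he, hs, ← hN]
                ring)).1
              rcases Nat.mul_eq_zero.1 h1 with h2 | h2
              · exact h2
              · omega
            have heq : x j * A + x k * B = N := by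
              apply Nat.eq_of_mul_eq_mul_right hg0
              rw [hs, hs0, zero_add, mul_one] at he
              calc (x j * A + x k * B) * g = x j * (A * g) + x k * (B * g) := by ring
                _ = g * N := he.symm
                _ = N * g := mul_comm _ _
            rw [hl3, hxt, zero_add]
            rcases Nat.le_total A B with hle | hle
            · have h1 : x k * A ≤ x k * B := Nat.mul_le_mul_left _ hle
              have h2 : v * B ≤ A * B := Nat.mul_le_mul_right _ hvA.le
              have h3 : (x j + x k) * A ≤ (u + B) * A := by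
                have e1 : (x j + x k) * A = x j * A + x k * A := by ring
                have e2 : (u + B) * A = u * A + A * B := by ring
                omega
              have h4 := Nat.le_of_mul_le_mul_right h3 (show 0 < A by omega)
              omega
            · have h1 : x j * B ≤ x j * A := Nat.mul_le_mul_left _ hle
              have h2 : u * A ≤ B * κ * A := Nat.mul_le_mul_right _ hκu
              have h3 : (x j + x k) * B ≤ (v + A * κ) * B := by
                have e1 : (x j + x k) * B = x j * B + x k * B := by ring
                have e2 : (v + A * κ) * B = B * κ * A + v * B := by ring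
                omega
              have h4 := Nat.le_of_mul_le_mul_right h3 (show 0 < B by omega)
              omega
      · -- the generator `A g`
        subst ht
        rcases Nat.lt_or_ge (x k) A with h1 | h1
        · rcases Nat.lt_or_ge (x i) g with h2 | h2
          · exfalso
            rw [hv3, hxt, zero_mul, add_zero, dvd3 h hij.symm hjk hik] at hd
            obtain ⟨a, b, c, he⟩ := hd
            rw [hj, hi, hk, ← hN] at he
            exact no_rep (by omega) hAB hcop hg0 (by omega) h2 h1 a b c he
          · have h3 := hx.mult h2 (by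
              rw [dvd3 h hij.symm hjk hik]
              obtain ⟨u', rfl⟩ : ∃ u', u = u' + 1 := ⟨u - 1, by omega⟩
              refine ⟨u', 0, v, ?_⟩
              rw [hj, hi, hk, ← hN]
              ring)
            rw [h3, len_single]
            omega
        · have h3 := hx.mult h1 (by
            rw [dvd3 h hij.symm hjk hik]
            obtain ⟨B', rfl⟩ : ∃ B', B = B' + 1 := ⟨B - 1, by omega⟩
            refine ⟨B', 0, 0, ?_⟩
            rw [hj, hk]
            ring)
          rw [h3, len_single]
          omega
      · -- the generator `B g`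
        subst ht
        rcases Nat.lt_or_ge (x j) B with h1 | h1
        · rcases Nat.lt_or_ge (x i) g with h2 | h2
          · exfalso
            rw [hv3, hxt, zero_mul, add_zero, dvd3 h hik.symm hjk.symm hij] at hd
            obtain ⟨a, b, c, he⟩ := hd
            rw [hj, hi, hk, ← hN] at he
            have hcop2 : Nat.Coprime g (v * B + u * A) := by
              rw [add_comm]
              exact hcop
            refine no_rep (by omega) hAB.symm hcop2 hg0 (by omega) h2 h1 a b c ?_
            rw [add_comm (v * B)]
            exact he
          · have h3 := hx.mult h2 (by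
              rw [dvd3 h hik.symm hjk.symm hij]
              obtain ⟨v', rfl⟩ : ∃ v', v = v' + 1 := ⟨v - 1, by omega⟩
              refine ⟨v', 0, u, ?_⟩
              rw [hj, hi, hk, ← hN]
              ring)
            rw [h3, len_single]
            omega
        · have h3 := hx.mult h1 (by
            rw [dvd3 h hik.symm hjk.symm hij]
            obtain ⟨A', hA'⟩ : ∃ A', A = A' + 1 := ⟨A - 1, by omega⟩
            refine ⟨A', 0, 0, ?_⟩
            rw [hj, hk, hA']
            ring)
          rw [h3, len_single]
          omega
  intro hne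
  have ht : tame S n ≤ ((g + m - 1 : ℕ) : ℕ∞) := by
    rw [← hne]
    exact_mod_cast hom
  obtain ⟨y, hy, hyi, hdst⟩ := tame_use h ht i (Pi.single j (u + B)) (by
    rw [val_single]
    exact dα)
  have hyv : y i * N + y j * (A * g) + y k * (B * g) = (u + B) * (A * g) := by
    have h1 : val n y = val n (Pi.single j (u + B)) := hy
    rw [hv3, val_single, hj] at h1
    exact h1
  obtain ⟨t, ht'⟩ : g ∣ y i := by
    refine hcop'.dvd_of_dvd_mul_right ?_
    have h1 : g ∣ y i * N + (y j * (A * g) + y k * (B * g)) := by
      rw [← add_assoc, hyv]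
      exact ⟨(u + B) * A, by ring⟩
    exact (Nat.dvd_add_left ⟨y j * A + y k * B, by ring⟩).1 h1
  have ht1 : 1 ≤ t := by
    rcases Nat.eq_zero_or_pos t with h1 | h1
    · rw [h1, mul_zero] at ht'
      exact absurd ht' hyi
    · exact h1
  have h1 : t * N + y j * A + y k * B = (u + B) * A := by
    apply Nat.eq_of_mul_eq_mul_right hg0
    calc (t * N + y j * A + y k * B) * g = (g * t) * N + y j * (A * g) + y k * (B * g) := by ring
      _ = (u + B) * (A * g) := by rw [← ht', hyv]
      _ = (u + B) * A * g := by ring
  obtain ⟨s, hs⟩ : A ∣ t * v + y k := by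
    have h2 : A ∣ (t * v + y k) * B := by
      have h3 : (t * v + y k) * B + (t * u + y j) * A = (u + B) * A := by
        rw [← h1, ← hN]
        ring
      have h4 : A ∣ (t * v + y k) * B + (t * u + y j) * A := by
        rw [h3]
        exact ⟨u + B, by ring⟩
      exact (Nat.dvd_add_left ⟨t * u + y j, by ring⟩).1 h4
    exact hAB.dvd_of_dvd_mul_right h2
  have htv : v ≤ t * v := Nat.le_mul_of_pos_left _ ht1
  have hs1 : 1 ≤ s := by
    rcases Nat.eq_zero_or_pos s with h2 | h2
    · rw [h2, mul_zero] at hs
      omega
    · exact h2
  have h2 : t * u + y j + B * s = u + B := by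
    apply Nat.eq_of_mul_eq_mul_right (show 0 < A by omega)
    rw [← h1, ← hN]
    calc (t * u + y j + B * s) * A = (t * u + y j) * A + B * (A * s) := by ring
      _ = t * (u * A + v * B) + y j * A + y k * B := by rw [← hs]; ring
  have htu : u ≤ t * u := Nat.le_mul_of_pos_left _ ht1
  have hBs : B ≤ B * s := Nat.le_mul_of_pos_right _ hs1
  have hyj : y j = 0 := by omega
  have hs2 : s = 1 := by
    have h3 : B * s = B * 1 := by omega
    exact Nat.eq_of_mul_eq_mul_left (show 0 < B by omega) h3
  have ht2 : t = 1 := by
    have h3 : t * u = 1 * u := by omega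
    exact Nat.eq_of_mul_eq_mul_right (show 0 < u by omega) h3
  rw [ht2, one_mul, hs2, mul_one] at hs
  rw [ht2, mul_one] at ht'
  have hdis : ∀ l, (Pi.single j (u + B) : Fin 3 → ℕ) l = 0 ∨ y l = 0 := by
    intro l
    by_cases hl : l = j
    · right
      rw [hl]
      exact hyj
    · left
      exact Pi.single_eq_of_ne hl _
  rw [dst_of_disj hdis] at hdst
  have h3 := (le_max_right _ _).trans hdst
  rw [hl3, ht', hyj] at h3
  omega

/-- Embedding dimension three. -/
theorem three (h : NumSg S n) : (omega S n : ℕ∞) ≠ tame S n ↔
    ∃ g A B u v : ℕ, Set.range n = {g * A, g * B, u * A + v * B} ∧ Par g A B u v :=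
  ⟨three_mp h, fun ⟨_, _, _, _, _, hr, hp⟩ => three_mpr h hr hp⟩

end Pool.Agent.TDO
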